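import Mathlib

/-!
Computable signatures, Gödel numbers of sentences, computable models, and the degree `0^(ω)`.
-/

set_option autoImplicit false

namespace Run7.h44.CM

open FirstOrder

/-- The characteristic function of a set of natural numbers (given by its bits), as an oracle. -/
def chi (A : ℕ → Bool) : ℕ →. ℕ := fun n => Part.some (A n).toNat

/-- `n ∈ WE A e`: for some `k` the `e`-th program halts on the input consisting of the first `k`
bits of `A` and of `n`. These are the sets computably enumerable relative to `A`. -/
def WE (A : ℕ → Bool) (e : ℕ) : Set ℕ :=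
  {n | ∃ k : ℕ, ((Denumerable.ofNat Nat.Partrec.Code e).eval
    (Encodable.encode ((List.range k).map A, n))).Dom}

open Classical in
/-- The Turing jump of `A`. -/
noncomputable def jump (A : ℕ → Bool) : ℕ → Bool := fun e => decide (e ∈ WE A e)

/-- The iterated jumps `∅^(n)` of the empty set. -/
noncomputable def jumpIter : ℕ → ℕ → Bool
  | 0 => fun _ => false
  | n + 1 => jump (jumpIter n)

/-- The set `∅^(ω)` of all `⟨n, x⟩` with `x ∈ ∅^(n)`. -/
noncomputable def zeroOmega (m : ℕ) : Bool := jumpIter m.unpair.1 m.unpair.2

/-- A signature: the function symbols are the `i` with `isF i = true`, of arity `arF i`; the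
relation symbols are the `i` with `isR i = true`, of arity `arR i`. -/
structure Sig where
  isF : ℕ → Bool
  arF : ℕ → ℕ
  isR : ℕ → Bool
  arR : ℕ → ℕ

/-- The symbols and their arities are given effectively. -/
def Sig.IsComputable (s : Sig) : Prop :=
  Computable s.isF ∧ Computable s.arF ∧ Computable s.isR ∧ Computable s.arR

/-- The first-order language of a signature. -/
def Sig.lang (s : Sig) : FirstOrder.Language.{0, 0} where
  Functions n := {i : ℕ // s.isF i = true ∧ s.arF i = n}
  Relations n := {i : ℕ // s.isR i = true ∧ s.arR i = n}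

/-- The Gödel number of a term. -/
def termCode {s : Sig} {k : ℕ} : s.lang.Term (Empty ⊕ Fin k) → ℕ
  | .var (.inl x) => x.elim
  | .var (.inr i) => Nat.pair 0 i
  | .func f ts => Nat.pair 1 (Nat.pair f.1 (Encodable.encode (List.ofFn fun i => termCode (ts i))))

/-- The Gödel number of a formula. -/
def formCode {s : Sig} : {k : ℕ} → s.lang.BoundedFormula Empty k → ℕ
  | _, .falsum => Nat.pair 0 0
  | _, .equal t₁ t₂ => Nat.pair 1 (Nat.pair (termCode t₁) (termCode t₂))
  | _, .rel R ts =>
      Nat.pair 2 (Nat.pair R.1 (Encodable.encode (List.ofFn fun i => termCode (ts i))))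
  | _, .imp φ ψ => Nat.pair 3 (Nat.pair (formCode φ) (formCode ψ))
  | _, .all φ => Nat.pair 4 (formCode φ)

open Classical in
/-- The characteristic function of the set of the Gödel numbers of the sentences in `T`. -/
noncomputable def theorySet {s : Sig} (T : s.lang.Theory) (y : ℕ) : Bool :=
  decide (∃ φ ∈ T, formCode φ = y)

/-- `T` has a computable model: a model whose universe is a nonempty computable set `U` of natural
numbers and whose functions and relations are computable, uniformly in the symbols. -/
def HasComputableModel {s : Sig} (T : s.lang.Theory) : Prop :=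
  ∃ (U : ℕ → Bool) (F : ℕ → List ℕ → ℕ) (R : ℕ → List ℕ → Bool)
    (_ : s.lang.Structure {a : ℕ // U a = true}),
    Computable U ∧ Computable₂ F ∧ Computable₂ R ∧ (∃ a, U a = true) ∧
    (∀ n (f : s.lang.Functions n) (x : Fin n → {a : ℕ // U a = true}),
      (FirstOrder.Language.Structure.funMap f x : {a : ℕ // U a = true}).1 =
        F f.1 (List.ofFn fun i => (x i).1)) ∧
    (∀ n (r : s.lang.Relations n) (x : Fin n → {a : ℕ // U a = true}),
      FirstOrder.Language.Structure.RelMap r x ↔ R r.1 (List.ofFn fun i => (x i).1) = true) ∧
    {a : ℕ // U a = true} ⊨ T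

end Run7.h44.CM
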