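import Pool.Agent.H685R3.Om

/-!
Inductively generated relations with Sigma-one rules are Sigma-one.
-/

set_option autoImplicit false

namespace Run7.h44.CM

open Encodable
open Nat.Partrec (Code)
open Pool.Agent.Helper227 Pool.Agent.H685R3

/-- The least relation closed under the rules `R a l x`: from the members of `l` infer `x`. -/
inductive Der {α β : Type} (R : α → List β → β → Prop) (a : α) : β → Prop
  | mk (l : List β) (x : β) (h : ∀ y, y ∈ l → Der R a y) (hR : R a l x) : Der R a x

section

variable {α β : Type} {R : α → List β → β → Prop} {a : α}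

/-- `L` is a derivation: every entry follows from earlier ones. -/
def IsDer (R : α → List β → β → Prop) (a : α) (L : List β) : Prop :=
  ∀ i, ∀ h : i < L.length, ∃ l : List β, (∀ y ∈ l, y ∈ L.take i) ∧ R a l L[i]

theorem IsDer.append {L L' : List β} (h : IsDer R a L) (h' : IsDer R a L') :
    IsDer R a (L ++ L') := by
  intro i hi
  by_cases h1 : i < L.length
  · obtain ⟨l, h2, h3⟩ := h i h1
    refine ⟨l, fun y hy => ?_, ?_⟩
    · have := h2 y hy
      rw [List.take_append_of_le_length (by omega)]
      exact this
    · rw [List.getElem_append_left h1]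
      exact h3
  · have h4 : i - L.length < L'.length := by
      rw [List.length_append] at hi
      omega
    obtain ⟨l, h2, h3⟩ := h' _ h4
    refine ⟨l, fun y hy => ?_, ?_⟩
    · have := h2 y hy
      rw [List.take_append]
      exact List.mem_append_right _ this
    · rw [List.getElem_append_right (by omega)]
      exact h3

theorem IsDer.nil : IsDer R a [] := by
  intro i hi
  simp at hi

theorem IsDer.snoc {L l : List β} {x : β} (h : IsDer R a L) (h1 : ∀ y ∈ l, y ∈ L)
    (h2 : R a l x) : IsDer R a (L ++ [x]) := by
  intro i hi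
  by_cases h3 : i < L.length
  · obtain ⟨l', h4, h5⟩ := h i h3
    refine ⟨l', fun y hy => ?_, ?_⟩
    · rw [List.take_append_of_le_length (by omega)]
      exact h4 y hy
    · rw [List.getElem_append_left h3]
      exact h5
  · have h4 : i = L.length := by
      simp at hi
      omega
    subst h4
    refine ⟨l, fun y hy => ?_, ?_⟩
    · rw [List.take_append_of_le_length le_rfl, List.take_length]
      exact h1 y hy
    · rw [List.getElem_append_right le_rfl]
      simpa using h2

theorem der_iff {x : β} : Der R a x ↔ ∃ L, IsDer R a L ∧ x ∈ L := by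
  constructor
  · intro h
    induction h with
    | mk l x _ hR ih =>
      have key : ∀ l' : List β, (∀ y ∈ l', ∃ L, IsDer R a L ∧ y ∈ L) →
          ∃ L, IsDer R a L ∧ ∀ y ∈ l', y ∈ L := by
        intro l'
        induction l' with
        | nil => exact fun _ => ⟨[], IsDer.nil, by simp⟩
        | cons c l' ih' =>
          intro h1
          obtain ⟨L, h2, h3⟩ := ih' fun y hy => h1 y (List.mem_cons_of_mem _ hy)
          obtain ⟨L', h4, h5⟩ := h1 c List.mem_cons_self
          refine ⟨L ++ L', h2.append h4, fun y hy => ?_⟩
          rcases List.mem_cons.1 hy with rfl | hy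
          · exact List.mem_append_right _ h5
          · exact List.mem_append_left _ (h3 y hy)
      obtain ⟨L, h2, h3⟩ := key l ih
      exact ⟨L ++ [x], h2.snoc h3 hR, by simp⟩
  · rintro ⟨L, h1, h2⟩
    have key : ∀ i, ∀ h : i < L.length, Der R a L[i] := by
      intro i
      induction i using Nat.strong_induction_on with
      | _ i ih =>
        intro hi
        obtain ⟨l, h3, h4⟩ := h1 i hi
        refine Der.mk l _ (fun y hy => ?_) h4
        obtain ⟨k, hk, rfl⟩ := List.mem_iff_getElem.1 (h3 y hy)
        rw [List.getElem_take]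
        rw [List.length_take] at hk
        exact ih k (by omega) _
    obtain ⟨k, hk, rfl⟩ := List.mem_iff_getElem.1 h2
    exact key k hk

end

theorem s1_der {α β : Type} [Primcodable α] [Primcodable β] [Inhabited β]
    {R : α → List β → β → Prop}
    (hR : S1 fun x : α × (List β × β) => R x.1 x.2.1 x.2.2) :
    S1 fun x : α × β => Der R x.1 x.2 := by
  classical
  have h1 : S1 fun x : α × β => ∃ L : List β,
      (∀ i < L.length, ∃ l : List β, (∀ y ∈ l, y ∈ L.take i) ∧ R x.1 l (L.getD i default)) ∧
        x.2 ∈ L := by
    refine S1.ex (α := α × β) (β := List β) (p := fun x L =>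
      (∀ i < L.length, ∃ l : List β, (∀ y ∈ l, y ∈ L.take i) ∧ R x.1 l (L.getD i default)) ∧
        x.2 ∈ L) (S1.and ?_ ?_)
    · refine S1.all_lt (α := (α × β) × List β) (p := fun z i =>
        ∃ l : List β, (∀ y ∈ l, y ∈ z.2.take i) ∧ R z.1.1 l (z.2.getD i default))
        (f := fun z => z.2.length) ?_ (Primrec.list_length.comp Primrec.snd)
      refine S1.ex (α := ((α × β) × List β) × ℕ) (β := List β) (p := fun u l =>
        (∀ y ∈ l, y ∈ u.1.2.take u.2) ∧ R u.1.1.1 l (u.1.2.getD u.2 default)) (S1.and ?_ ?_)
      · refine S1.all_mem (α := (((α × β) × List β) × ℕ) × List β) (β := β)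
          (p := fun w y => y ∈ w.1.1.2.take w.1.2) (f := fun w => w.2) (S1.of_prim ?_) Primrec.snd
        have h2 : PrimrecPred fun v : ((((α × β) × List β) × ℕ) × List β) × β =>
            ∃ y' ∈ v.1.1.1.2.take v.1.1.2, y' = v.2 := by
          refine PP.ex_mem (α := ((((α × β) × List β) × ℕ) × List β) × β)
            (f := fun v => v.1.1.1.2.take v.1.1.2) (p := fun v y' => y' = v.2) ?_ ?_
          · exact Primrec.eq.comp Primrec.snd (Primrec.snd.comp Primrec.fst)
          · exact Primrec.list_take.comp (Primrec.snd.comp (Primrec.fst.comp Primrec.fst))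
              (Primrec.snd.comp (Primrec.fst.comp (Primrec.fst.comp Primrec.fst)))
        exact h2.of_eq fun v => by simp
      · refine hR.comp (f := fun w : (((α × β) × List β) × ℕ) × List β =>
          (w.1.1.1.1, (w.2, w.1.1.2.getD w.1.2 default))) ?_
        refine Primrec.pair (Primrec.fst.comp (Primrec.fst.comp (Primrec.fst.comp Primrec.fst)))
          (Primrec.pair Primrec.snd ?_)
        exact (Primrec.list_getD default).comp (Primrec.snd.comp (Primrec.fst.comp Primrec.fst))
          (Primrec.snd.comp Primrec.fst)
    · refine S1.of_prim ?_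
      have h2 : PrimrecPred fun v : (α × β) × List β => ∃ y' ∈ v.2, y' = v.1.2 := by
        refine PP.ex_mem (α := (α × β) × List β) (f := fun v => v.2) (p := fun v y' => y' = v.1.2)
          ?_ Primrec.snd
        exact Primrec.eq.comp Primrec.snd (Primrec.snd.comp (Primrec.fst.comp Primrec.fst))
      exact h2.of_eq fun v => by simp
  refine h1.of_eq fun x => ?_
  rw [der_iff]
  refine exists_congr fun L => and_congr_left fun _ => ?_
  constructor
  · intro h i hi
    obtain ⟨l, h2, h3⟩ := h i hi
    refine ⟨l, h2, ?_⟩
    rwa [List.getD_eq_getElem _ _ hi] at h3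
  · intro h i hi
    obtain ⟨l, h2, h3⟩ := h i hi
    refine ⟨l, h2, ?_⟩
    rwa [List.getD_eq_getElem _ _ hi]

end Run7.h44.CM
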