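import Pool.Agent.H685R3.Inv

/-!
A uniformly `X`-computable family of sets, where `X` computes the halting problem, does not meet
all Turing degrees below `X`: there is a set `D` computable from `X` which is Turing equivalent to
no member of the family.
-/

set_option autoImplicit false

namespace Run7.h44.CM

open Encodable
open Nat.Partrec (Code)
open Pool.Agent.Helper227 Pool.Agent.H685R3

/-- The program `c` halts on the string `σ` and the data `(n, b)`. -/
def H (c : Code) (x : List Bool × (ℕ × Bool)) : Prop := (c.eval (encode x)).Dom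

theorem s1_H : S1 fun x : Code × (List Bool × (ℕ × Bool)) => H x.1 x.2 :=
  S1.comp (f := fun x : Code × (List Bool × (ℕ × Bool)) => (x.1, encode x.2)) s1_eval
    (Primrec.fst.pair (Primrec.encode.comp Primrec.snd))

/-- Turing reductions are given by programs. -/
theorem exists_code_of_tLe {A B : ℕ → Bool} (h : TLe A B) :
    ∃ c : Code, (∀ σ τ x, σ <+: τ → H c (σ, x) → H c (τ, x)) ∧
      ∀ n b, A n = b ↔ ∃ s, H c (pre B s, (n, b)) := by
  obtain ⟨E, hE, mE, eE⟩ := tLe_iff_SI.1 h
  obtain ⟨c, hc⟩ := Nat.Partrec.Code.exists_code.1 hE.re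
  have key : ∀ x, H c x ↔ E x := by
    intro x
    unfold H
    rw [hc]
    simp [Part.assert]
  refine ⟨c, fun σ τ x h1 h2 => (key _).2 (mE _ _ _ h1 ((key _).1 h2)), fun n b => ?_⟩
  exact (eE (n, b)).trans (exists_congr fun s => (key _).symm)

/-- `(τ, ρ, b)` is a witness for the string `σ` and the programs `k`, `j`. -/
def Wt (y : List Bool × (Code × Code)) (w : List Bool × (List Bool × Bool)) : Prop :=
  (y.1 ++ [false] <+: w.1 ∧ H y.2.2 (w.2.1, (y.1.length, w.2.2))) ∧
    ∀ m < w.2.1.length, H y.2.1 (w.1, (m, w.2.1.getD m false))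

theorem primrec_prefix {α : Type*} [Primcodable α] {f g : α → List Bool} (hf : Primrec f)
    (hg : Primrec g) : PrimrecPred fun a => f a <+: g a := by
  have : PrimrecPred fun a => (g a).take (f a).length = f a :=
    Primrec.eq.comp (Primrec.list_take.comp (Primrec.list_length.comp hf) hg) hf
  refine this.of_eq fun a => ?_
  rw [List.prefix_iff_eq_take, eq_comm]

theorem s1_Wt : S1 fun x : (List Bool × (Code × Code)) × (List Bool × (List Bool × Bool)) =>
    Wt x.1 x.2 := by
  refine S1.and (S1.and (S1.of_prim ?_) ?_) ?_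
  · refine primrec_prefix ?_ ?_
    · exact Primrec.list_append.comp (Primrec.fst.comp Primrec.fst) (Primrec.const [false])
    · exact Primrec.fst.comp Primrec.snd
  · refine S1.comp (f := fun x : (List Bool × (Code × Code)) × (List Bool × (List Bool × Bool)) =>
      (x.1.2.2, (x.2.2.1, (x.1.1.length, x.2.2.2)))) s1_H ?_
    exact (Primrec.snd.comp (Primrec.snd.comp Primrec.fst)).pair
      ((Primrec.fst.comp (Primrec.snd.comp Primrec.snd)).pair
        ((Primrec.list_length.comp (Primrec.fst.comp Primrec.fst)).pair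
          (Primrec.snd.comp (Primrec.snd.comp Primrec.snd))))
  · refine S1.all_lt
      (p := fun (x : (List Bool × (Code × Code)) × (List Bool × (List Bool × Bool))) m =>
        H x.1.2.1 (x.2.1, (m, x.2.2.1.getD m false))) ?_
      (Primrec.list_length.comp (Primrec.fst.comp (Primrec.snd.comp Primrec.snd)))
    refine S1.comp (f := fun z : ((List Bool × (Code × Code)) ×
      (List Bool × (List Bool × Bool))) × ℕ =>
        (z.1.1.2.1, (z.1.2.1, (z.2, z.1.2.2.1.getD z.2 false)))) s1_H ?_
    exact (Primrec.fst.comp (Primrec.snd.comp (Primrec.fst.comp Primrec.fst))).pair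
      ((Primrec.fst.comp (Primrec.snd.comp Primrec.fst)).pair
        (Primrec.snd.pair ((Primrec.list_getD false).comp
          (Primrec.fst.comp (Primrec.snd.comp (Primrec.snd.comp Primrec.fst))) Primrec.snd)))

/-- The data attached to the stage `n` with the string `σ`. -/
def yd (x : ℕ × List Bool) : List Bool × (Code × Code) :=
  (x.2, (Denumerable.ofNat Code x.1.unpair.2.unpair.1, Denumerable.ofNat Code x.1.unpair.2.unpair.2))

theorem primrec_yd : Primrec yd := by
  have h1 : Primrec fun x : ℕ × List Bool => x.1.unpair.2.unpair :=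
    Primrec.unpair.comp (Primrec.snd.comp (Primrec.unpair.comp Primrec.fst))
  exact Primrec.snd.pair (((Primrec.ofNat Code).comp (Primrec.fst.comp h1)).pair
    ((Primrec.ofNat Code).comp (Primrec.snd.comp h1)))

/-- There is a uniformization of `Wt`. -/
theorem exists_sel (X : ℕ → Bool) :
    ∃ G : List Bool × (Code × Code) → List Bool × (List Bool × Bool) → Prop,
      SI X (fun x : (List Bool × (Code × Code)) × (List Bool × (List Bool × Bool)) => G x.1 x.2) ∧
      (∀ a b, G a b → Wt a b) ∧ (∀ a b b', G a b → G a b' → b = b') ∧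
      ∀ a, (∃ b, Wt a b) → ∃ b, G a b := by
  obtain ⟨G, h1, h2, h3, h4⟩ := US.choose (P := fun _ => Wt) (US.of_s1 s1_Wt)
  exact ⟨G X, h1.toSI X, h2 X, h3 X, h4 X⟩

/-- One step of the construction. -/
def StepR (T : ℕ → ℕ → Bool)
    (G : List Bool × (Code × Code) → List Bool × (List Bool × Bool) → Prop)
    (x : ℕ × List Bool) (σ' : List Bool) : Prop :=
  ((¬ ∃ w, Wt (yd x) w) ∧ σ' = x.2 ++ [false]) ∨
  ∃ w, G (yd x) w ∧
    (((∃ m, m < w.2.1.length ∧ T x.1.unpair.1 m = !(w.2.1.getD m false)) ∧ σ' = w.1) ∨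
      ((∀ m < w.2.1.length, T x.1.unpair.1 m = w.2.1.getD m false) ∧
        ((w.2.2 = true ∧ σ' = w.1) ∨ (w.2.2 = false ∧ σ' = x.2 ++ [true]))))

section

variable {X : ℕ → Bool} {T : ℕ → ℕ → Bool}
  {G : List Bool × (Code × Code) → List Bool × (List Bool × Bool) → Prop}

theorem si_StepR (hX : TLe (jump fun _ => false) X)
    (hT : SI X fun x : (ℕ × ℕ) × Bool => T x.1.1 x.1.2 = x.2)
    (hG : SI X fun x : (List Bool × (Code × Code)) × (List Bool × (List Bool × Bool)) => G x.1 x.2) :
    SI X fun x : (ℕ × List Bool) × List Bool => StepR T G x.1 x.2 := by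
  have h1 : S1 fun y : List Bool × (Code × Code) => ∃ w, Wt y w := S1.ex s1_Wt
  have h2 : SI X fun y : List Bool × (Code × Code) => ¬ ∃ w, Wt y w :=
    ((SI.of_s1 (B := fun _ => false) h1).decide_jump.2).trans hX
  refine SI.or (SI.and ?_ (SI.of_prim ?_)) ?_
  · exact h2.comp (f := fun x : (ℕ × List Bool) × List Bool => yd x.1)
      (primrec_yd.comp Primrec.fst)
  · exact Primrec.eq.comp Primrec.snd
      (Primrec.list_append.comp (Primrec.snd.comp Primrec.fst) (Primrec.const [false]))
  · refine SI.ex (α := (ℕ × List Bool) × List Bool) (β := List Bool × (List Bool × Bool))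
      (p := fun x w => G (yd x.1) w ∧
        (((∃ m, m < w.2.1.length ∧ T x.1.1.unpair.1 m = !(w.2.1.getD m false)) ∧ x.2 = w.1) ∨
          ((∀ m < w.2.1.length, T x.1.1.unpair.1 m = w.2.1.getD m false) ∧
            ((w.2.2 = true ∧ x.2 = w.1) ∨ (w.2.2 = false ∧ x.2 = x.1.2 ++ [true])))))
      (SI.and ?_ (SI.or (SI.and ?_ (SI.of_prim ?_)) (SI.and ?_ (SI.of_prim ?_))))
    · exact hG.comp (f := fun z : ((ℕ × List Bool) × List Bool) × (List Bool × (List Bool × Bool)) =>
        (yd z.1.1, z.2)) ((primrec_yd.comp (Primrec.fst.comp Primrec.fst)).pair Primrec.snd)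
    · refine SI.ex (α := ((ℕ × List Bool) × List Bool) × (List Bool × (List Bool × Bool)))
        (p := fun z m => m < z.2.2.1.length ∧
          T z.1.1.1.unpair.1 m = !(z.2.2.1.getD m false)) (SI.and (SI.of_prim ?_) ?_)
      · exact Primrec.nat_lt.comp Primrec.snd (Primrec.list_length.comp
          (Primrec.fst.comp (Primrec.snd.comp (Primrec.snd.comp Primrec.fst))))
      · refine hT.comp (f := fun u : (((ℕ × List Bool) × List Bool) ×
          (List Bool × (List Bool × Bool))) × ℕ =>
            ((u.1.1.1.1.unpair.1, u.2), !(u.1.2.2.1.getD u.2 false))) ?_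
        refine Primrec.pair (Primrec.pair ?_ Primrec.snd) ?_
        · exact Primrec.fst.comp (Primrec.unpair.comp (Primrec.fst.comp
            (Primrec.fst.comp (Primrec.fst.comp Primrec.fst))))
        · exact Primrec.not.comp ((Primrec.list_getD false).comp
            (Primrec.fst.comp (Primrec.snd.comp (Primrec.snd.comp Primrec.fst))) Primrec.snd)
    · exact Primrec.eq.comp (Primrec.snd.comp Primrec.fst) (Primrec.fst.comp Primrec.snd)
    · refine SI.all_lt (α := ((ℕ × List Bool) × List Bool) × (List Bool × (List Bool × Bool)))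
        (p := fun z m => T z.1.1.1.unpair.1 m = z.2.2.1.getD m false)
        (f := fun z => z.2.2.1.length) ?_ (Primrec.list_length.comp
          (Primrec.fst.comp (Primrec.snd.comp Primrec.snd)))
      refine hT.comp (f := fun u : (((ℕ × List Bool) × List Bool) ×
          (List Bool × (List Bool × Bool))) × ℕ =>
            ((u.1.1.1.1.unpair.1, u.2), u.1.2.2.1.getD u.2 false)) ?_
      refine Primrec.pair (Primrec.pair ?_ Primrec.snd) ?_
      · exact Primrec.fst.comp (Primrec.unpair.comp (Primrec.fst.comp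
            (Primrec.fst.comp (Primrec.fst.comp Primrec.fst))))
      · exact (Primrec.list_getD false).comp
            (Primrec.fst.comp (Primrec.snd.comp (Primrec.snd.comp Primrec.fst))) Primrec.snd
    · refine PrimrecPred.or (PrimrecPred.and ?_ ?_) (PrimrecPred.and ?_ ?_)
      · exact Primrec.eq.comp (Primrec.snd.comp (Primrec.snd.comp Primrec.snd))
          (Primrec.const true)
      · exact Primrec.eq.comp (Primrec.snd.comp Primrec.fst) (Primrec.fst.comp Primrec.snd)
      · exact Primrec.eq.comp (Primrec.snd.comp (Primrec.snd.comp Primrec.snd))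
          (Primrec.const false)
      · exact Primrec.eq.comp (Primrec.snd.comp Primrec.fst)
          (Primrec.list_append.comp (Primrec.snd.comp (Primrec.fst.comp Primrec.fst))
            (Primrec.const [true]))

theorem StepR.unique (h2 : ∀ a b, G a b → Wt a b) (h3 : ∀ a b b', G a b → G a b' → b = b')
    {x : ℕ × List Bool} {s s' : List Bool} (h : StepR T G x s) (h' : StepR T G x s') : s = s' := by
  rcases h with ⟨h4, rfl⟩ | ⟨w, h5, h6⟩ <;> rcases h' with ⟨h4', rfl⟩ | ⟨w', h5', h6'⟩
  · rfl
  · exact absurd ⟨w', h2 _ _ h5'⟩ h4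
  · exact absurd ⟨w, h2 _ _ h5⟩ h4'
  · obtain rfl := h3 _ _ _ h5 h5'
    rcases h6 with ⟨⟨m, hm, hm2⟩, rfl⟩ | ⟨h7, h8⟩ <;>
      rcases h6' with ⟨⟨m', hm', hm2'⟩, rfl⟩ | ⟨h7', h8'⟩
    · rfl
    · rw [h7' m hm] at hm2
      exact absurd hm2 (by cases w.2.1.getD m false <;> simp)
    · rw [h7 m' hm'] at hm2'
      exact absurd hm2' (by cases w.2.1.getD m' false <;> simp)
    · rcases h8 with ⟨h9, rfl⟩ | ⟨h9, rfl⟩ <;> rcases h8' with ⟨h9', rfl⟩ | ⟨h9', rfl⟩
      · rfl
      · rw [h9] at h9'; cases h9'
      · rw [h9] at h9'; cases h9'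
      · rfl

theorem StepR.exists (h4 : ∀ a, (∃ b, Wt a b) → ∃ b, G a b) (x : ℕ × List Bool) :
    ∃ s, StepR T G x s := by
  by_cases h : ∃ w, Wt (yd x) w
  · obtain ⟨w, hw⟩ := h4 _ h
    by_cases h5 : ∀ m < w.2.1.length, T x.1.unpair.1 m = w.2.1.getD m false
    · cases h6 : w.2.2 with
      | true => exact ⟨w.1, Or.inr ⟨w, hw, Or.inr ⟨h5, Or.inl ⟨h6, rfl⟩⟩⟩⟩
      | false => exact ⟨x.2 ++ [true], Or.inr ⟨w, hw, Or.inr ⟨h5, Or.inr ⟨h6, rfl⟩⟩⟩⟩
    · push Not at h5
      obtain ⟨m, hm, hm2⟩ := h5
      refine ⟨w.1, Or.inr ⟨w, hw, Or.inl ⟨⟨m, hm, ?_⟩, rfl⟩⟩⟩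
      cases h7 : w.2.1.getD m false <;> cases h8 : T x.1.unpair.1 m <;> simp_all
  · exact ⟨_, Or.inl ⟨h, rfl⟩⟩

theorem StepR.ext_bit (h2 : ∀ a b, G a b → Wt a b) {x : ℕ × List Bool} {s : List Bool}
    (h : StepR T G x s) : ∃ b, x.2 ++ [b] <+: s := by
  rcases h with ⟨h4, rfl⟩ | ⟨w, h5, h6⟩
  · exact ⟨false, List.prefix_rfl⟩
  · have h7 := (h2 _ _ h5).1.1
    rcases h6 with ⟨_, rfl⟩ | ⟨_, ⟨_, rfl⟩ | ⟨_, rfl⟩⟩
    · exact ⟨false, h7⟩
    · exact ⟨false, h7⟩
    · exact ⟨true, List.prefix_rfl⟩

/-- **Diagonalization.** -/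
theorem exists_diag (X : ℕ → Bool) (T : ℕ → ℕ → Bool) (hX : TLe (jump fun _ => false) X)
    (hT : SI X fun x : (ℕ × ℕ) × Bool => T x.1.1 x.1.2 = x.2) :
    ∃ D : ℕ → Bool, TLe D X ∧ ∀ e, ¬ (TLe (T e) D ∧ TLe D (T e)) := by
  obtain ⟨G, h1, h2, h3, h4⟩ := exists_sel X
  have hs := si_StepR hX hT h1
  choose nx hnx using fun x => StepR.exists (T := T) h4 x
  let st : ℕ → List Bool := fun n => Nat.rec [] (fun n σ => nx (n, σ)) n
  have st0 : st 0 = [] := rfl
  have stS : ∀ n, StepR T G (n, st n) (st (n + 1)) := fun n => hnx (n, st n)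
  have stP : ∀ n, ∃ b, st n ++ [b] <+: st (n + 1) := fun n => (stS n).ext_bit h2
  have stQ : ∀ n, st n <+: st (n + 1) := fun n => by
    obtain ⟨b, hb⟩ := stP n
    exact (List.prefix_append _ _).trans hb
  have stM : ∀ m n, m ≤ n → st m <+: st n := by
    intro m n h
    induction n, h using Nat.le_induction with
    | base => exact List.prefix_rfl
    | succ n _ ih => exact ih.trans (stQ n)
  have stL : ∀ n, n ≤ (st n).length := by
    intro n
    induction n with
    | zero => simp
    | succ n ih =>
      obtain ⟨b, hb⟩ := stP n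
      have := hb.length_le
      simp at this
      omega
  let D : ℕ → Bool := fun m => (st (m + 1)).getD m false
  have hD : ∀ n i, i < (st n).length → D i = (st n).getD i false := by
    intro n i hi
    have hi' : i < (st (i + 1)).length := lt_of_lt_of_le (Nat.lt_succ_self i) (stL (i + 1))
    have h5 : ∀ a b, a ≤ b → i < (st a).length → (st b).getD i false = (st a).getD i false := by
      intro a b hab h6
      obtain ⟨ρ, hρ⟩ := stM a b hab
      rw [← hρ, List.getD_append _ _ _ _ h6]
    change (st (i + 1)).getD i false = _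
    rcases le_total n (i + 1) with h6 | h6
    · exact h5 _ _ h6 hi
    · exact (h5 _ _ h6 hi').symm
  have hpre : ∀ n, pre D (st n).length = st n := by
    intro n
    refine List.ext_getElem (by simp) fun i h5 h6 => ?_
    rw [getElem_pre, hD n i h6]
    simp [h6]
  refine ⟨D, ?_, ?_⟩
  · rw [tLe_iff_SI]
    have h5 : SI X fun x : ℕ × Bool => ∃ L : List (List Bool),
        (L.getD 0 [] = [] ∧ (L.getD (x.1 + 1) []).getD x.1 false = x.2) ∧
          ∀ i < x.1 + 1, StepR T G (i, L.getD i []) (L.getD (i + 1) []) := by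
      refine SI.ex (α := ℕ × Bool) (β := List (List Bool))
        (p := fun x L => (L.getD 0 [] = [] ∧ (L.getD (x.1 + 1) []).getD x.1 false = x.2) ∧
          ∀ i < x.1 + 1, StepR T G (i, L.getD i []) (L.getD (i + 1) []))
        (SI.and (SI.of_prim (PrimrecPred.and ?_ ?_)) ?_)
      · exact Primrec.eq.comp ((Primrec.list_getD []).comp Primrec.snd (Primrec.const 0))
          (Primrec.const [])
      · refine Primrec.eq.comp ((Primrec.list_getD false).comp
          ((Primrec.list_getD []).comp Primrec.snd (Primrec.succ.comp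
            (Primrec.fst.comp Primrec.fst))) (Primrec.fst.comp Primrec.fst))
          (Primrec.snd.comp Primrec.fst)
      · refine SI.all_lt (α := (ℕ × Bool) × List (List Bool))
          (p := fun z i => StepR T G (i, z.2.getD i []) (z.2.getD (i + 1) []))
          (f := fun z => z.1.1 + 1) ?_ (Primrec.succ.comp (Primrec.fst.comp Primrec.fst))
        refine hs.comp (f := fun u : ((ℕ × Bool) × List (List Bool)) × ℕ =>
          ((u.2, u.1.2.getD u.2 []), u.1.2.getD (u.2 + 1) [])) ?_
        refine Primrec.pair (Primrec.pair Primrec.snd ?_) ?_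
        · exact (Primrec.list_getD []).comp (Primrec.snd.comp Primrec.fst) Primrec.snd
        · exact (Primrec.list_getD []).comp (Primrec.snd.comp Primrec.fst)
            (Primrec.succ.comp Primrec.snd)
    refine h5.of_eq fun x => ?_
    constructor
    · rintro ⟨L, ⟨h6, h7⟩, h8⟩
      have h9 : ∀ i ≤ x.1 + 1, L.getD i [] = st i := by
        intro i
        induction i with
        | zero => intro _; rw [h6, st0]
        | succ i ih =>
          intro hi
          have h10 := h8 i (by omega)
          rw [ih (by omega)] at h10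
          exact StepR.unique h2 h3 h10 (stS i)
      rw [h9 _ le_rfl] at h7
      exact h7
    · intro h6
      have h9 : ∀ i ≤ x.1 + 1, ((List.range (x.1 + 2)).map st).getD i [] = st i := by
        intro i hi
        have : i < x.1 + 2 := by omega
        simp [List.getD, this]
      refine ⟨(List.range (x.1 + 2)).map st, ⟨?_, ?_⟩, fun i hi => ?_⟩
      · rw [h9 0 (by omega), st0]
      · rw [h9 _ le_rfl]
        exact h6
      · rw [h9 i (by omega), h9 (i + 1) (by omega)]
        exact stS i
  · rintro e ⟨hk, hj⟩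
    obtain ⟨k, mk, ek⟩ := exists_code_of_tLe hk
    obtain ⟨j, mj, ej⟩ := exists_code_of_tLe hj
    let n := Nat.pair e (Nat.pair (encode k) (encode j))
    have hn1 : n.unpair.1 = e := by simp [n]
    have hy : yd (n, st n) = (st n, (k, j)) := by simp [yd, n]
    have hstep := stS n
    -- the value of `D` at `x`
    have hval : ∀ b, st n ++ [b] <+: st (n + 1) → D (st n).length = b := by
      intro b hb
      have h5 : (st n).length < (st (n + 1)).length := by
        have := hb.length_le
        simp at this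
        omega
      rw [hD (n + 1) _ h5]
      obtain ⟨ρ, hρ⟩ := hb
      rw [← hρ, List.append_assoc, List.getD_append_right _ _ _ _ le_rfl]
      simp
    rcases hstep with ⟨h5, h6⟩ | ⟨w, h5, h6⟩
    · apply h5
      have h7 : D (st n).length = false := hval false (by rw [h6])
      obtain ⟨s, hs1⟩ := (ej _ _).1 h7
      have h8 : ∀ t, ∃ s', ∀ m < t, H k (pre D s', (m, T e m)) := by
        intro t
        induction t with
        | zero => exact ⟨0, by simp⟩
        | succ t ih =>
          obtain ⟨s1, h9⟩ := ih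
          obtain ⟨s2, h10⟩ := (ek t (T e t)).1 rfl
          refine ⟨max s1 s2, fun m hm => ?_⟩
          rcases Nat.lt_succ_iff_lt_or_eq.1 hm with hm' | rfl
          · exact mk _ _ _ (pre_prefix D (le_max_left _ _)) (h9 m hm')
          · exact mk _ _ _ (pre_prefix D (le_max_right _ _)) h10
      obtain ⟨s', hs'⟩ := h8 s
      refine ⟨(pre D (max s' (st (n + 1)).length), (pre (T e) s, false)), ⟨?_, ?_⟩, ?_⟩
      · rw [hy]
        have h11 := pre_prefix D (le_max_right s' (st (n + 1)).length)
        have h12 : st n ++ [false] <+: pre D (st (n + 1)).length := by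
          rw [hpre (n + 1), h6]
        exact h12.trans h11
      · rw [hy]
        exact hs1
      · intro m hm
        simp only [length_pre] at hm
        rw [hy]
        simp only
        rw [pre_getD _ _ _ _ hm]
        exact mk _ _ _ (pre_prefix D (le_max_left _ _)) (hs' m hm)
    · have h7 := h2 _ _ h5
      rw [hy] at h7
      obtain ⟨⟨h8, h9⟩, h10⟩ := h7
      simp only at h8 h9 h10
      rw [hn1] at h6
      rcases h6 with ⟨⟨m, hm, hm2⟩, h11⟩ | ⟨h11, h12⟩
      · have h13 := h10 m hm
        have h14 : w.1 = pre D w.1.length := by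
          rw [← h11]
          exact (hpre (n + 1)).symm
        rw [h14] at h13
        have h15 := (ek _ _).2 ⟨_, h13⟩
        rw [hm2] at h15
        exact absurd h15 (by cases w.2.1.getD m false <;> simp)
      · have h13 : w.2.1 = pre (T e) w.2.1.length := by
          refine List.ext_getElem (by simp) fun i h14 h15 => ?_
          rw [getElem_pre, h11 i h14]
          simp [h14]
        rw [h13] at h9
        have h14 := (ej _ _).2 ⟨_, h9⟩
        rcases h12 with ⟨h15, h16⟩ | ⟨h15, h16⟩
        · have h17 := hval false (by rw [h16]; exact h8)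
          rw [h14, h15] at h17
          cases h17
        · have h17 := hval true (by rw [h16])
          rw [h14, h15] at h17
          cases h17

end

end Run7.h44.CM
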