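import Pool.Agent.Run7.h44.CM.Der

/-!
Evaluation of codes of formulas in structures given by programs, uniformly from the iterated
jumps.
-/

set_option autoImplicit false

namespace Run7.h44.CM

open Encodable
open Nat.Partrec (Code)
open Pool.Agent.Helper227 Pool.Agent.H685R3

/-- Programs for the universe, the functions and the relations. -/
abbrev E3 := Code × (Code × Code)

/-- The rules for the values of terms. -/
def VR (a : E3 × List ℕ) (l : List (ℕ × ℕ)) (x : ℕ × ℕ) : Prop :=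
  (x.1.unpair.1 = 0 ∧ x.1.unpair.2 < a.2.length ∧ x.2 = a.2.getD x.1.unpair.2 0) ∨
  (x.1.unpair.1 = 1 ∧ x.1.unpair.2.unpair.2 = encode (l.map Prod.fst) ∧
    x.2 ∈ a.1.2.1.eval (encode (x.1.unpair.2.unpair.1, l.map Prod.snd)))

/-- The value of the term with code `x.1` is `x.2`. -/
def V (a : E3 × List ℕ) (x : ℕ × ℕ) : Prop := Der VR a x

theorem s1_VR : S1 fun x : (E3 × List ℕ) × (List (ℕ × ℕ) × (ℕ × ℕ)) => VR x.1 x.2.1 x.2.2 := by
  have hx : Primrec fun x : (E3 × List ℕ) × (List (ℕ × ℕ) × (ℕ × ℕ)) => x.2.2.1.unpair :=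
    Primrec.unpair.comp (Primrec.fst.comp (Primrec.snd.comp Primrec.snd))
  have hx2 : Primrec fun x : (E3 × List ℕ) × (List (ℕ × ℕ) × (ℕ × ℕ)) => x.2.2.1.unpair.2.unpair :=
    Primrec.unpair.comp (Primrec.snd.comp hx)
  refine S1.or (S1.of_prim ?_) (S1.and (S1.of_prim ?_) (S1.and (S1.of_prim ?_) ?_))
  · refine PrimrecPred.and ?_ (PrimrecPred.and ?_ ?_)
    · exact Primrec.eq.comp (Primrec.fst.comp hx) (Primrec.const 0)
    · exact Primrec.nat_lt.comp (Primrec.snd.comp hx)
        (Primrec.list_length.comp (Primrec.snd.comp Primrec.fst))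
    · exact Primrec.eq.comp (Primrec.snd.comp (Primrec.snd.comp Primrec.snd))
        ((Primrec.list_getD 0).comp (Primrec.snd.comp Primrec.fst) (Primrec.snd.comp hx))
  · exact Primrec.eq.comp (Primrec.fst.comp hx) (Primrec.const 1)
  · refine Primrec.eq.comp (Primrec.snd.comp hx2) (Primrec.encode.comp ?_)
    exact Primrec.list_map (Primrec.fst.comp Primrec.snd) (Primrec.fst.comp Primrec.snd)
  · refine s1_graph.comp (f := fun x : (E3 × List ℕ) × (List (ℕ × ℕ) × (ℕ × ℕ)) =>
      ((x.1.1.2.1, encode (x.2.2.1.unpair.2.unpair.1, x.2.1.map Prod.snd)), x.2.2.2)) ?_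
    refine Primrec.pair (Primrec.pair ?_ (Primrec.encode.comp (Primrec.pair ?_ ?_))) ?_
    · exact Primrec.fst.comp (Primrec.snd.comp (Primrec.fst.comp Primrec.fst))
    · exact Primrec.fst.comp hx2
    · exact Primrec.list_map (Primrec.fst.comp Primrec.snd) (Primrec.snd.comp Primrec.snd)
    · exact Primrec.snd.comp (Primrec.snd.comp Primrec.snd)

theorem s1_V : S1 fun x : (E3 × List ℕ) × (ℕ × ℕ) => V x.1 x.2 := s1_der s1_VR

/-- Arguments: programs, the code of a formula, and values of the variables. -/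
abbrev Z := E3 × (ℕ × List ℕ)

/-- Atomic formulas. -/
def At (z : Z) : Prop :=
  (z.2.1.unpair.1 = 1 ∧ ∃ b, V (z.1, z.2.2) (z.2.1.unpair.2.unpair.1, b) ∧
      V (z.1, z.2.2) (z.2.1.unpair.2.unpair.2, b)) ∨
  (z.2.1.unpair.1 = 2 ∧ ∃ l : List (ℕ × ℕ), (∀ y ∈ l, V (z.1, z.2.2) y) ∧
      z.2.1.unpair.2.unpair.2 = encode (l.map Prod.fst) ∧
      encode true ∈ z.1.2.2.eval (encode (z.2.1.unpair.2.unpair.1, l.map Prod.snd)))

theorem s1_At : S1 At := by
  have hz : Primrec fun z : Z => z.2.1.unpair := Primrec.unpair.comp (Primrec.fst.comp Primrec.snd)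
  have hz2 : Primrec fun z : Z => z.2.1.unpair.2.unpair := Primrec.unpair.comp (Primrec.snd.comp hz)
  refine S1.or (S1.and (S1.of_prim ?_) ?_) (S1.and (S1.of_prim ?_) ?_)
  · exact Primrec.eq.comp (Primrec.fst.comp hz) (Primrec.const 1)
  · refine S1.ex (α := Z) (β := ℕ) (p := fun z b => V (z.1, z.2.2) (z.2.1.unpair.2.unpair.1, b) ∧
      V (z.1, z.2.2) (z.2.1.unpair.2.unpair.2, b)) (S1.and ?_ ?_)
    · refine s1_V.comp (f := fun u : Z × ℕ =>
        ((u.1.1, u.1.2.2), (u.1.2.1.unpair.2.unpair.1, u.2))) ?_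
      exact ((Primrec.fst.comp Primrec.fst).pair (Primrec.snd.comp (Primrec.snd.comp
        Primrec.fst))).pair ((Primrec.fst.comp (hz2.comp Primrec.fst)).pair Primrec.snd)
    · refine s1_V.comp (f := fun u : Z × ℕ =>
        ((u.1.1, u.1.2.2), (u.1.2.1.unpair.2.unpair.2, u.2))) ?_
      exact ((Primrec.fst.comp Primrec.fst).pair (Primrec.snd.comp (Primrec.snd.comp
        Primrec.fst))).pair ((Primrec.snd.comp (hz2.comp Primrec.fst)).pair Primrec.snd)
  · exact Primrec.eq.comp (Primrec.fst.comp hz) (Primrec.const 2)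
  · refine S1.ex (α := Z) (β := List (ℕ × ℕ)) (p := fun z l =>
      (∀ y ∈ l, V (z.1, z.2.2) y) ∧ z.2.1.unpair.2.unpair.2 = encode (l.map Prod.fst) ∧
        encode true ∈ z.1.2.2.eval (encode (z.2.1.unpair.2.unpair.1, l.map Prod.snd)))
        (S1.and ?_ (S1.and (S1.of_prim ?_) ?_))
    · refine S1.all_mem (α := Z × List (ℕ × ℕ)) (β := ℕ × ℕ)
        (p := fun u y => V (u.1.1, u.1.2.2) y) (f := fun u => u.2) ?_ Primrec.snd
      refine s1_V.comp (f := fun w : (Z × List (ℕ × ℕ)) × (ℕ × ℕ) =>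
        ((w.1.1.1, w.1.1.2.2), w.2)) ?_
      exact ((Primrec.fst.comp (Primrec.fst.comp Primrec.fst)).pair
        (Primrec.snd.comp (Primrec.snd.comp (Primrec.fst.comp Primrec.fst)))).pair Primrec.snd
    · refine Primrec.eq.comp (Primrec.snd.comp (hz2.comp Primrec.fst)) (Primrec.encode.comp ?_)
      exact Primrec.list_map Primrec.snd (Primrec.fst.comp Primrec.snd)
    · refine s1_graph.comp (f := fun u : Z × List (ℕ × ℕ) =>
        ((u.1.1.2.2, encode (u.1.2.1.unpair.2.unpair.1, u.2.map Prod.snd)), encode true)) ?_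
      refine Primrec.pair (Primrec.pair ?_ (Primrec.encode.comp (Primrec.pair ?_ ?_)))
        (Primrec.const _)
      · exact Primrec.snd.comp (Primrec.snd.comp (Primrec.fst.comp Primrec.fst))
      · exact Primrec.fst.comp (hz2.comp Primrec.fst)
      · exact Primrec.list_map Primrec.snd (Primrec.snd.comp Primrec.snd)

/-- One step of the evaluation of formulas. -/
def OneStep (P : Z → Prop) (z : Z) : Prop :=
  At z ∨
  (z.2.1.unpair.1 = 3 ∧ (¬ P (z.1, (z.2.1.unpair.2.unpair.1, z.2.2)) ∨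
    P (z.1, (z.2.1.unpair.2.unpair.2, z.2.2)))) ∨
  (z.2.1.unpair.1 = 4 ∧ ∀ a, encode true ∈ z.1.1.eval a →
    P (z.1, (z.2.1.unpair.2, z.2.2 ++ [a])))

/-- Truth of formulas of bounded size. -/
def Ev : ℕ → Z → Prop
  | 0 => fun _ => False
  | n + 1 => OneStep (Ev n)

theorem exists_g1 : ∃ f1 : Code × Z → ℕ, Primrec f1 ∧ ∀ (B : ℕ → Bool) (x : Code × Z),
    (∃ a, encode true ∈ x.2.1.1.eval a ∧
      ∃ m, m ∈ x.1.eval (encode (x.2.1, (x.2.2.1.unpair.2, x.2.2.2 ++ [a]))) ∧ B m = false) ↔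
      jump B (f1 x) = true := by
  have h : US fun B (x : Code × Z) => ∃ a, encode true ∈ x.2.1.1.eval a ∧
      ∃ m, m ∈ x.1.eval (encode (x.2.1, (x.2.2.1.unpair.2, x.2.2.2 ++ [a]))) ∧ B m = false := by
    refine US.ex (α := Code × Z) (β := ℕ) (p := fun B x a => encode true ∈ x.2.1.1.eval a ∧
      ∃ m, m ∈ x.1.eval (encode (x.2.1, (x.2.2.1.unpair.2, x.2.2.2 ++ [a]))) ∧ B m = false)
      (US.and (US.of_s1 ?_) ?_)
    · refine s1_graph.comp (f := fun u : (Code × Z) × ℕ => ((u.1.2.1.1, u.2), encode true)) ?_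
      exact Primrec.pair (Primrec.pair (Primrec.fst.comp (Primrec.fst.comp (Primrec.snd.comp
        Primrec.fst))) Primrec.snd) (Primrec.const _)
    · refine US.ex (α := (Code × Z) × ℕ) (β := ℕ) (p := fun B u m =>
        m ∈ u.1.1.eval (encode (u.1.2.1, (u.1.2.2.1.unpair.2, u.1.2.2.2 ++ [u.2]))) ∧ B m = false)
        (US.and (US.of_s1 ?_) ?_)
      · refine s1_graph.comp (f := fun w : ((Code × Z) × ℕ) × ℕ => ((w.1.1.1,
          encode (w.1.1.2.1, (w.1.1.2.2.1.unpair.2, w.1.1.2.2.2 ++ [w.1.2]))), w.2)) ?_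
        have h1 : Primrec fun w : ((Code × Z) × ℕ) × ℕ => w.1.1.2 :=
          Primrec.snd.comp (Primrec.fst.comp Primrec.fst)
        refine Primrec.pair (Primrec.pair (Primrec.fst.comp (Primrec.fst.comp Primrec.fst))
          (Primrec.encode.comp (Primrec.pair (Primrec.fst.comp h1) (Primrec.pair ?_ ?_))))
          Primrec.snd
        · exact Primrec.snd.comp (Primrec.unpair.comp (Primrec.fst.comp (Primrec.snd.comp h1)))
        · exact Primrec.list_append.comp (Primrec.snd.comp (Primrec.snd.comp h1))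
            (Primrec.list_cons.comp (Primrec.snd.comp Primrec.fst) (Primrec.const []))
      · exact US.query.comp (f := fun w : ((Code × Z) × ℕ) × ℕ => (w.2, false))
          (Primrec.snd.pair (Primrec.const false))
  exact h.to_jump

theorem exists_g0 : ∃ f0 : ℕ × Bool → ℕ, Primrec f0 ∧ ∀ (B : ℕ → Bool) (x : ℕ × Bool),
    B x.1 = x.2 ↔ jump B (f0 x) = true := US.query.to_jump

/-- The uniform reduction of one step of the evaluation to two jumps. -/
theorem exists_g : ∃ g : Code × Z → ℕ, Primrec g ∧ ∀ (B : ℕ → Bool) (c : Code) (P : Z → Prop),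
    (∀ z, ∃ m, m ∈ c.eval (encode z) ∧ (P z ↔ B m = true)) →
    ∀ z, OneStep P z ↔ jump (jump B) (g (c, z)) = true := by
  obtain ⟨f1, hf1, e1⟩ := exists_g1
  obtain ⟨f0, hf0, e0⟩ := exists_g0
  have h3 : Primrec fun x : Code × Z => x.2.2.1.unpair :=
    Primrec.unpair.comp (Primrec.fst.comp (Primrec.snd.comp Primrec.snd))
  have h4 : Primrec fun x : Code × Z => x.2.2.1.unpair.2.unpair :=
    Primrec.unpair.comp (Primrec.snd.comp h3)
  have hq : ∀ (b : Bool) (s : ℕ × ℕ → ℕ), Primrec s → US fun J (x : Code × Z) =>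
      ∃ m, m ∈ x.1.eval (encode (x.2.1, (s x.2.2.1.unpair.2.unpair, x.2.2.2))) ∧
        J (f0 (m, b)) = true := by
    intro b s hs
    refine US.ex (α := Code × Z) (β := ℕ) (p := fun J x m =>
      m ∈ x.1.eval (encode (x.2.1, (s x.2.2.1.unpair.2.unpair, x.2.2.2))) ∧ J (f0 (m, b)) = true)
      (US.and (US.of_s1 ?_) ?_)
    · refine s1_graph.comp (f := fun w : (Code × Z) × ℕ => ((w.1.1,
        encode (w.1.2.1, (s w.1.2.2.1.unpair.2.unpair, w.1.2.2.2))), w.2)) ?_
      refine Primrec.pair (Primrec.pair (Primrec.fst.comp Primrec.fst) (Primrec.encode.comp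
        (Primrec.pair (Primrec.fst.comp (Primrec.snd.comp Primrec.fst)) (Primrec.pair ?_ ?_))))
        Primrec.snd
      · exact hs.comp (h4.comp Primrec.fst)
      · exact Primrec.snd.comp (Primrec.snd.comp (Primrec.snd.comp Primrec.fst))
    · exact US.query.comp (f := fun w : (Code × Z) × ℕ => (f0 (w.2, b), true))
        ((hf0.comp (Primrec.snd.pair (Primrec.const b))).pair (Primrec.const true))
  have h : US fun J (x : Code × Z) => At x.2 ∨
      (x.2.2.1.unpair.1 = 3 ∧
        ((∃ m, m ∈ x.1.eval (encode (x.2.1, (x.2.2.1.unpair.2.unpair.1, x.2.2.2))) ∧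
            J (f0 (m, false)) = true) ∨
          (∃ m, m ∈ x.1.eval (encode (x.2.1, (x.2.2.1.unpair.2.unpair.2, x.2.2.2))) ∧
            J (f0 (m, true)) = true))) ∨
      (x.2.2.1.unpair.1 = 4 ∧ J (f1 x) = false) := by
    refine US.or (US.of_s1 (s1_At.comp Primrec.snd)) (US.or (US.and (US.of_prim ?_) ?_)
      (US.and (US.of_prim ?_) ?_))
    · exact Primrec.eq.comp (Primrec.fst.comp h3) (Primrec.const 3)
    · exact US.or (hq false Prod.fst Primrec.fst) (hq true Prod.snd Primrec.snd)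
    · exact Primrec.eq.comp (Primrec.fst.comp h3) (Primrec.const 4)
    · exact US.query.comp (f := fun x : Code × Z => (f1 x, false)) (hf1.pair (Primrec.const false))
  obtain ⟨g, hg, eg⟩ := h.to_jump
  refine ⟨g, hg, fun B c P hP z => ?_⟩
  rw [← eg (jump B) (c, z)]
  unfold OneStep
  refine or_congr Iff.rfl (or_congr (and_congr Iff.rfl (or_congr ?_ ?_)) (and_congr Iff.rfl ?_))
  · obtain ⟨m, h1, h2⟩ := hP (z.1, (z.2.1.unpair.2.unpair.1, z.2.2))
    rw [h2]
    constructor
    · intro h5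
      refine ⟨m, h1, (e0 B (m, false)).1 ?_⟩
      simpa using h5
    · rintro ⟨m', h6, h7⟩
      have h8 := (e0 B (m', false)).2 h7
      rw [Part.mem_unique h1 h6]
      simpa using h8
  · obtain ⟨m, h1, h2⟩ := hP (z.1, (z.2.1.unpair.2.unpair.2, z.2.2))
    rw [h2]
    constructor
    · intro h5
      exact ⟨m, h1, (e0 B (m, true)).1 h5⟩
    · rintro ⟨m', h6, h7⟩
      have h8 := (e0 B (m', true)).2 h7
      rw [Part.mem_unique h1 h6]
      exact h8
  · have h5 := e1 B (c, z)
    simp only at h5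
    rw [← Bool.not_eq_true, ← h5]
    push Not
    refine forall_congr' fun a => forall_congr' fun ha => ?_
    obtain ⟨m, h1, h2⟩ := hP (z.1, (z.2.1.unpair.2, z.2.2 ++ [a]))
    rw [h2]
    constructor
    · intro h6 m' h7
      rw [Part.mem_unique h7 h1, h6]
      simp
    · intro h6
      have h7 := h6 m h1
      simpa using h7

/-- The programs reducing the truth of formulas to the iterated jumps. -/
theorem exists_red : ∃ s : Code → Code, Primrec s ∧ ∀ n z, ∃ m,
    m ∈ (s^[n] Code.zero).eval (encode z) ∧ (Ev n z ↔ jn (fun _ => false) (2 * n) m = true) := by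
  obtain ⟨g, hg, eg⟩ := exists_g
  obtain ⟨s, hs, es⟩ := exists_smn hg
  refine ⟨s, hs, fun n => ?_⟩
  induction n with
  | zero =>
    intro z
    exact ⟨0, by simp [Code.eval, pure, PFun.pure], by simp [Ev, jn]⟩
  | succ n ih =>
    intro z
    refine ⟨g (s^[n] Code.zero, z), ?_, ?_⟩
    · rw [Function.iterate_succ_apply']
      exact es _ _
    · rw [show 2 * (n + 1) = 2 * n + 1 + 1 by ring]
      exact eg _ _ _ ih z

open Classical in
/-- The theory with the index `e`. -/
noncomputable def Th (e : ℕ) (y : ℕ) : Bool :=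
  decide (((Denumerable.ofNat (Code × E3) e).1.eval y).Dom ∧
    Ev (y + 1) ((Denumerable.ofNat (Code × E3) e).2, (y, [])))

theorem si_Th : SI (om fun _ => false) fun x : (ℕ × ℕ) × Bool => Th x.1.1 x.1.2 = x.2 := by
  obtain ⟨s, hs, es⟩ := exists_red
  have hj : TLe (jump fun _ => false) (om fun _ => false) := tLe_jn_om (fun _ => false) 1
  have h1 : S1 fun x : (ℕ × ℕ) × Bool =>
      ((Denumerable.ofNat (Code × E3) x.1.1).1.eval x.1.2).Dom :=
    s1_eval.comp (f := fun x : (ℕ × ℕ) × Bool => ((Denumerable.ofNat (Code × E3) x.1.1).1, x.1.2))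
      ((Primrec.fst.comp ((Primrec.ofNat _).comp (Primrec.fst.comp Primrec.fst))).pair
        (Primrec.snd.comp Primrec.fst))
  have h2 := (SI.of_s1 (B := fun _ => false) h1).decide_jump.2.trans hj
  have h3 : ∀ b : Bool, SI (om fun _ => false) fun x : (ℕ × ℕ) × Bool =>
      ∃ m, m ∈ (s^[x.1.2 + 1] Code.zero).eval
        (encode ((Denumerable.ofNat (Code × E3) x.1.1).2, (x.1.2, ([] : List ℕ)))) ∧
        om (fun _ => false) (Nat.pair (2 * (x.1.2 + 1)) m) = b := by
    intro b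
    refine SI.ex (α := (ℕ × ℕ) × Bool) (β := ℕ) (p := fun x m =>
      m ∈ (s^[x.1.2 + 1] Code.zero).eval
        (encode ((Denumerable.ofNat (Code × E3) x.1.1).2, (x.1.2, ([] : List ℕ)))) ∧
        om (fun _ => false) (Nat.pair (2 * (x.1.2 + 1)) m) = b) (SI.and (SI.of_s1 ?_) ?_)
    · refine s1_graph.comp (f := fun u : ((ℕ × ℕ) × Bool) × ℕ => ((s^[u.1.1.2 + 1] Code.zero,
        encode ((Denumerable.ofNat (Code × E3) u.1.1.1).2, (u.1.1.2, ([] : List ℕ)))), u.2)) ?_
      have hu : Primrec fun u : ((ℕ × ℕ) × Bool) × ℕ => u.1.1.2 :=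
        Primrec.snd.comp (Primrec.fst.comp Primrec.fst)
      refine Primrec.pair (Primrec.pair ?_ (Primrec.encode.comp (Primrec.pair ?_
        (hu.pair (Primrec.const _))))) Primrec.snd
      · exact Primrec.nat_iterate (f := fun u : ((ℕ × ℕ) × Bool) × ℕ => u.1.1.2 + 1)
          (g := fun _ => Code.zero) (h := fun _ c => s c) (Primrec.succ.comp hu)
          (Primrec.const _) (hs.comp Primrec.snd)
      · exact Primrec.snd.comp ((Primrec.ofNat _).comp (Primrec.fst.comp (Primrec.fst.comp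
          Primrec.fst)))
    · refine SI.query.comp (f := fun u : ((ℕ × ℕ) × Bool) × ℕ =>
        (Nat.pair (2 * (u.1.1.2 + 1)) u.2, b)) ?_
      refine Primrec.pair (Primrec₂.natPair.comp ?_ Primrec.snd) (Primrec.const b)
      exact Primrec.nat_mul.comp (Primrec.const 2) (Primrec.succ.comp
        (Primrec.snd.comp (Primrec.fst.comp Primrec.fst)))
  have h4 : SI (om fun _ => false) fun x : (ℕ × ℕ) × Bool =>
      ((((Denumerable.ofNat (Code × E3) x.1.1).1.eval x.1.2).Dom ∧
        ∃ m, m ∈ (s^[x.1.2 + 1] Code.zero).eval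
          (encode ((Denumerable.ofNat (Code × E3) x.1.1).2, (x.1.2, ([] : List ℕ)))) ∧
          om (fun _ => false) (Nat.pair (2 * (x.1.2 + 1)) m) = true) ∧ x.2 = true) ∨
      ((¬ ((Denumerable.ofNat (Code × E3) x.1.1).1.eval x.1.2).Dom ∨
        ∃ m, m ∈ (s^[x.1.2 + 1] Code.zero).eval
          (encode ((Denumerable.ofNat (Code × E3) x.1.1).2, (x.1.2, ([] : List ℕ)))) ∧
          om (fun _ => false) (Nat.pair (2 * (x.1.2 + 1)) m) = false) ∧ x.2 = false) := by
    refine SI.or (SI.and (SI.and (SI.of_s1 h1) (h3 true)) (SI.of_prim ?_))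
      (SI.and (SI.or h2 (h3 false)) (SI.of_prim ?_))
    · exact Primrec.eq.comp Primrec.snd (Primrec.const true)
    · exact Primrec.eq.comp Primrec.snd (Primrec.const false)
  refine h4.of_eq fun x => ?_
  obtain ⟨⟨e, y⟩, b⟩ := x
  simp only
  obtain ⟨m, h5, h6⟩ := es (y + 1) ((Denumerable.ofNat (Code × E3) e).2, (y, []))
  have h7 : ∀ b, (∃ m, m ∈ (s^[y + 1] Code.zero).eval
      (encode ((Denumerable.ofNat (Code × E3) e).2, (y, ([] : List ℕ)))) ∧
      om (fun _ => false) (Nat.pair (2 * (y + 1)) m) = b) ↔ jn (fun _ => false) (2 * (y + 1)) m = b := by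
    intro b
    constructor
    · rintro ⟨m', h8, h9⟩
      rw [Part.mem_unique h8 h5, om_pair] at h9
      exact h9
    · intro h8
      exact ⟨m, h5, by rw [om_pair]; exact h8⟩
  rw [h7, h7]
  unfold Th
  rw [h6]
  by_cases h8 : ((Denumerable.ofNat (Code × E3) e).1.eval y).Dom <;>
    cases h9 : jn (fun _ => false) (2 * (y + 1)) m <;> cases b <;> simp [h8]

end Run7.h44.CM
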