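import Pool.Agent.Run7.h44.CM.Eval
import Pool.Agent.Run7.h44.CM.Defs

/-!
The Gödel numbers of sentences are computably enumerable, and the evaluation of codes of formulas
is correct.
-/

set_option autoImplicit false

namespace Run7.h44.CM

open Encodable FirstOrder
open Nat.Partrec (Code)
open Pool.Agent.Helper227 (S1)

/-- Lists of facts with the same number of variables about terms. -/
def TL (k : ℕ) (l : List (ℕ × (ℕ × ℕ))) : Prop := ∀ y ∈ l, y.1 = 0 ∧ y.2.1 = k

/-- The rules for terms (first component `0`) and formulas (first component `1`): the second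
component is the number of variables, the third one the Gödel number. -/
def WR (s : Sig) (_ : ℕ) (l : List (ℕ × (ℕ × ℕ))) (x : ℕ × (ℕ × ℕ)) : Prop :=
  (x.1 = 0 ∧ x.2.2.unpair.1 = 0 ∧ x.2.2.unpair.2 < x.2.1) ∨
  ((x.1 = 0 ∧ x.2.2.unpair.1 = 1 ∧ TL x.2.1 l ∧
    x.2.2.unpair.2.unpair.2 = encode (l.map fun y => y.2.2)) ∧
    s.isF x.2.2.unpair.2.unpair.1 = true ∧ s.arF x.2.2.unpair.2.unpair.1 = l.length) ∨
  (x.1 = 1 ∧ x.2.2 = Nat.pair 0 0) ∨
  (x.1 = 1 ∧ x.2.2.unpair.1 = 1 ∧
    l = [(0, (x.2.1, x.2.2.unpair.2.unpair.1)), (0, (x.2.1, x.2.2.unpair.2.unpair.2))]) ∨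
  ((x.1 = 1 ∧ x.2.2.unpair.1 = 2 ∧ TL x.2.1 l ∧
    x.2.2.unpair.2.unpair.2 = encode (l.map fun y => y.2.2)) ∧
    s.isR x.2.2.unpair.2.unpair.1 = true ∧ s.arR x.2.2.unpair.2.unpair.1 = l.length) ∨
  (x.1 = 1 ∧ x.2.2.unpair.1 = 3 ∧
    l = [(1, (x.2.1, x.2.2.unpair.2.unpair.1)), (1, (x.2.1, x.2.2.unpair.2.unpair.2))]) ∨
  (x.1 = 1 ∧ x.2.2.unpair.1 = 4 ∧ l = [(1, (x.2.1 + 1, x.2.2.unpair.2))])

theorem s1_WR {s : Sig} (hs : s.IsComputable) :
    S1 fun x : ℕ × (List (ℕ × (ℕ × ℕ)) × (ℕ × (ℕ × ℕ))) => WR s x.1 x.2.1 x.2.2 := by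
  obtain ⟨h1, h2, h3, h4⟩ := hs
  have px : Primrec fun x : ℕ × (List (ℕ × (ℕ × ℕ)) × (ℕ × (ℕ × ℕ))) => x.2.2 :=
    Primrec.snd.comp Primrec.snd
  have pk : Primrec fun x : ℕ × (List (ℕ × (ℕ × ℕ)) × (ℕ × (ℕ × ℕ))) => x.2.2.2.1 :=
    Primrec.fst.comp (Primrec.snd.comp px)
  have pc : Primrec fun x : ℕ × (List (ℕ × (ℕ × ℕ)) × (ℕ × (ℕ × ℕ))) => x.2.2.2.2 :=
    Primrec.snd.comp (Primrec.snd.comp px)
  have pu : Primrec fun x : ℕ × (List (ℕ × (ℕ × ℕ)) × (ℕ × (ℕ × ℕ))) => x.2.2.2.2.unpair :=
    Primrec.unpair.comp pc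
  have pv : Primrec fun x : ℕ × (List (ℕ × (ℕ × ℕ)) × (ℕ × (ℕ × ℕ))) =>
      x.2.2.2.2.unpair.2.unpair := Primrec.unpair.comp (Primrec.snd.comp pu)
  have pl : Primrec fun x : ℕ × (List (ℕ × (ℕ × ℕ)) × (ℕ × (ℕ × ℕ))) => x.2.1 :=
    Primrec.fst.comp Primrec.snd
  have k0 : ∀ b : ℕ, PrimrecPred fun x : ℕ × (List (ℕ × (ℕ × ℕ)) × (ℕ × (ℕ × ℕ))) =>
      x.2.2.1 = b := fun b => Primrec.eq.comp (Primrec.fst.comp px) (Primrec.const b)
  have k1 : ∀ b : ℕ, PrimrecPred fun x : ℕ × (List (ℕ × (ℕ × ℕ)) × (ℕ × (ℕ × ℕ))) =>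
      x.2.2.2.2.unpair.1 = b := fun b => Primrec.eq.comp (Primrec.fst.comp pu) (Primrec.const b)
  have kT : PrimrecPred fun x : ℕ × (List (ℕ × (ℕ × ℕ)) × (ℕ × (ℕ × ℕ))) =>
      TL x.2.2.2.1 x.2.1 := by
    refine Pool.Agent.Helper227.PP.all_mem
      (α := ℕ × (List (ℕ × (ℕ × ℕ)) × (ℕ × (ℕ × ℕ)))) (β := ℕ × (ℕ × ℕ))
      (f := fun x => x.2.1) (p := fun x y => y.1 = 0 ∧ y.2.1 = x.2.2.2.1)
      (PrimrecPred.and ?_ ?_) pl
    · exact Primrec.eq.comp (Primrec.fst.comp Primrec.snd) (Primrec.const 0)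
    · exact Primrec.eq.comp (Primrec.fst.comp (Primrec.snd.comp Primrec.snd))
        (pk.comp Primrec.fst)
  have kE : PrimrecPred fun x : ℕ × (List (ℕ × (ℕ × ℕ)) × (ℕ × (ℕ × ℕ))) =>
      x.2.2.2.2.unpair.2.unpair.2 = encode (x.2.1.map fun y => y.2.2) := by
    refine Primrec.eq.comp (Primrec.snd.comp pv) (Primrec.encode.comp (Primrec.list_map pl ?_))
    exact Primrec.snd.comp (Primrec.snd.comp Primrec.snd)
  have pLen : Primrec fun x : ℕ × (List (ℕ × (ℕ × ℕ)) × (ℕ × (ℕ × ℕ))) => x.2.1.length :=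
    Primrec.list_length.comp pl
  have hB : ∀ {f : ℕ → Bool}, Computable f →
      S1 fun x : ℕ × (List (ℕ × (ℕ × ℕ)) × (ℕ × (ℕ × ℕ))) =>
        f x.2.2.2.2.unpair.2.unpair.1 = true := by
    intro f hf
    refine (S1.of_prim (p := fun b : Bool => b = true)
      (Primrec.eq.comp Primrec.id (Primrec.const true))).comp_computable ?_
    exact hf.comp (Primrec.fst.comp pv).to_comp
  have hN : ∀ {f : ℕ → ℕ}, Computable f →
      S1 fun x : ℕ × (List (ℕ × (ℕ × ℕ)) × (ℕ × (ℕ × ℕ))) =>
        f x.2.2.2.2.unpair.2.unpair.1 = x.2.1.length := by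
    intro f hf
    refine (S1.of_prim (p := fun b : ℕ × ℕ => b.1 = b.2)
      (Primrec.eq.comp Primrec.fst Primrec.snd)).comp_computable
        (f := fun x : ℕ × (List (ℕ × (ℕ × ℕ)) × (ℕ × (ℕ × ℕ))) =>
          (f x.2.2.2.2.unpair.2.unpair.1, x.2.1.length)) ?_
    exact (hf.comp (Primrec.fst.comp pv).to_comp).pair pLen.to_comp
  refine S1.or (S1.of_prim ?_) (S1.or (S1.and (S1.of_prim ?_) (S1.and (hB h1) (hN h2)))
    (S1.or (S1.of_prim ?_) (S1.or (S1.of_prim ?_)
      (S1.or (S1.and (S1.of_prim ?_) (S1.and (hB h3) (hN h4)))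
        (S1.or (S1.of_prim ?_) (S1.of_prim ?_))))))
  · exact (k0 0).and ((k1 0).and (Primrec.nat_lt.comp (Primrec.snd.comp pu) pk))
  · exact (k0 0).and ((k1 1).and (kT.and kE))
  · exact (k0 1).and (Primrec.eq.comp pc (Primrec.const _))
  · refine (k0 1).and ((k1 1).and (Primrec.eq.comp pl ?_))
    exact Primrec.list_cons.comp ((Primrec.const 0).pair (pk.pair (Primrec.fst.comp pv)))
      (Primrec.list_cons.comp ((Primrec.const 0).pair (pk.pair (Primrec.snd.comp pv)))
        (Primrec.const []))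
  · exact (k0 1).and ((k1 2).and (kT.and kE))
  · refine (k0 1).and ((k1 3).and (Primrec.eq.comp pl ?_))
    exact Primrec.list_cons.comp ((Primrec.const 1).pair (pk.pair (Primrec.fst.comp pv)))
      (Primrec.list_cons.comp ((Primrec.const 1).pair (pk.pair (Primrec.snd.comp pv)))
        (Primrec.const []))
  · refine (k0 1).and ((k1 4).and (Primrec.eq.comp pl ?_))
    exact Primrec.list_cons.comp ((Primrec.const 1).pair ((Primrec.succ.comp pk).pair
      (Primrec.snd.comp pu))) (Primrec.const [])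

/-- What the facts mean. -/
def Good (s : Sig) (x : ℕ × (ℕ × ℕ)) : Prop :=
  (x.1 = 0 → ∃ t : s.lang.Term (Empty ⊕ Fin x.2.1), termCode t = x.2.2) ∧
  (x.1 = 1 → ∃ φ : s.lang.BoundedFormula Empty x.2.1, formCode φ = x.2.2)

theorem exists_terms {s : Sig} {k : ℕ} {l : List (ℕ × (ℕ × ℕ))} (h : ∀ y ∈ l, Good s y)
    (hT : TL k l) : ∃ ts : Fin l.length → s.lang.Term (Empty ⊕ Fin k),
      (List.ofFn fun i => termCode (ts i)) = l.map fun y => y.2.2 := by
  have h1 : ∀ i : Fin l.length, ∃ t : s.lang.Term (Empty ⊕ Fin k), termCode t = l[i].2.2 := by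
    intro i
    have h2 := h l[i] (List.getElem_mem _)
    obtain ⟨h3, h4⟩ := hT l[i] (List.getElem_mem _)
    obtain ⟨t, ht⟩ := h2.1 h3
    rw [← h4]
    exact ⟨t, ht⟩
  choose ts hts using h1
  refine ⟨ts, ?_⟩
  refine List.ext_getElem (by simp) fun i h5 h6 => ?_
  simp only [List.getElem_ofFn, List.getElem_map]
  exact hts _

theorem good_of_der {s : Sig} {a : ℕ} {x : ℕ × (ℕ × ℕ)} (h : Der (WR s) a x) : Good s x := by
  induction h with
  | mk l x _ hR ih =>
    obtain ⟨i, k, c⟩ := x
    unfold WR at hR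
    simp only at hR
    rcases hR with ⟨rfl, h1, h2⟩ | ⟨⟨rfl, h1, h2, h3⟩, h4, h5⟩ | ⟨rfl, h1⟩ | ⟨rfl, h1, h2⟩ |
      ⟨⟨rfl, h1, h2, h3⟩, h4, h5⟩ | ⟨rfl, h1, h2⟩ | ⟨rfl, h1, h2⟩
    · refine ⟨fun _ => ⟨.var (.inr ⟨c.unpair.2, h2⟩), ?_⟩, fun h => absurd h (by simp)⟩
      simp only [termCode]
      rw [← h1, Nat.pair_unpair]
    · refine ⟨fun _ => ?_, fun h => absurd h (by simp)⟩
      obtain ⟨ts, hts⟩ := exists_terms ih h2
      refine ⟨.func (⟨c.unpair.2.unpair.1, h4, h5⟩ : s.lang.Functions l.length) ts, ?_⟩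
      simp only [termCode]
      rw [hts, ← h3, Nat.pair_unpair, ← h1, Nat.pair_unpair]
    · refine ⟨fun h => absurd h (by simp), fun _ => ⟨.falsum, ?_⟩⟩
      simp only [formCode]
      exact h1.symm
    · refine ⟨fun h => absurd h (by simp), fun _ => ?_⟩
      subst h2
      obtain ⟨t, ht⟩ := (ih _ (by simp)).1 (rfl : (0, (k, c.unpair.2.unpair.1)).1 = 0)
      obtain ⟨t', ht'⟩ := (ih (0, (k, c.unpair.2.unpair.2)) (by simp)).1 rfl
      refine ⟨.equal t t', ?_⟩
      simp only [formCode]
      rw [ht, ht']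
      simp only
      rw [Nat.pair_unpair, ← h1, Nat.pair_unpair]
    · refine ⟨fun h => absurd h (by simp), fun _ => ?_⟩
      obtain ⟨ts, hts⟩ := exists_terms ih h2
      refine ⟨.rel (⟨c.unpair.2.unpair.1, h4, h5⟩ : s.lang.Relations l.length) ts, ?_⟩
      simp only [formCode]
      rw [hts, ← h3, Nat.pair_unpair, ← h1, Nat.pair_unpair]
    · refine ⟨fun h => absurd h (by simp), fun _ => ?_⟩
      subst h2
      obtain ⟨t, ht⟩ := (ih (1, (k, c.unpair.2.unpair.1)) (by simp)).2 rfl
      obtain ⟨t', ht'⟩ := (ih (1, (k, c.unpair.2.unpair.2)) (by simp)).2 rfl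
      refine ⟨.imp t t', ?_⟩
      simp only [formCode]
      rw [ht, ht']
      simp only
      rw [Nat.pair_unpair, ← h1, Nat.pair_unpair]
    · refine ⟨fun h => absurd h (by simp), fun _ => ?_⟩
      subst h2
      obtain ⟨t, ht⟩ := (ih (1, (k + 1, c.unpair.2)) (by simp)).2 rfl
      refine ⟨.all t, ?_⟩
      simp only [formCode]
      rw [ht]
      simp only
      rw [← h1, Nat.pair_unpair]

theorem der_term {s : Sig} {k : ℕ} (t : s.lang.Term (Empty ⊕ Fin k)) :
    Der (WR s) 0 (0, (k, termCode t)) := by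
  induction t with
  | var x =>
    rcases x with x | i
    · exact x.elim
    · refine Der.mk [] _ (by simp) (Or.inl ?_)
      simp [termCode]
  | @func n f ts ih =>
    refine Der.mk (List.ofFn fun i => (0, (k, termCode (ts i)))) _ ?_ (Or.inr (Or.inl ?_))
    · intro y hy
      rw [List.mem_ofFn] at hy
      obtain ⟨i, rfl⟩ := hy
      exact ih i
    · simp only [termCode, Nat.unpair_pair, List.length_ofFn]
      refine ⟨⟨trivial, trivial, ?_, ?_⟩, f.2.1, f.2.2⟩
      · intro y hy
        rw [List.mem_ofFn] at hy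
        obtain ⟨i, rfl⟩ := hy
        exact ⟨rfl, rfl⟩
      · congr 1
        rw [List.map_ofFn]
        rfl

theorem der_form {s : Sig} {k : ℕ} (φ : s.lang.BoundedFormula Empty k) :
    Der (WR s) 0 (1, (k, formCode φ)) := by
  induction φ with
  | falsum => exact Der.mk [] _ (by simp) (Or.inr (Or.inr (Or.inl ⟨rfl, rfl⟩)))
  | @equal k t₁ t₂ =>
    refine Der.mk [(0, (k, termCode t₁)), (0, (k, termCode t₂))] _ ?_
      (Or.inr (Or.inr (Or.inr (Or.inl ?_))))
    · intro y hy
      simp only [List.mem_cons, List.not_mem_nil, or_false] at hy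
      rcases hy with rfl | rfl
      · exact der_term _
      · exact der_term _
    · simp [formCode]
  | @rel k n R ts =>
    refine Der.mk (List.ofFn fun i => (0, (k, termCode (ts i)))) _ ?_
      (Or.inr (Or.inr (Or.inr (Or.inr (Or.inl ?_)))))
    · intro y hy
      rw [List.mem_ofFn] at hy
      obtain ⟨i, rfl⟩ := hy
      exact der_term _
    · simp only [formCode, Nat.unpair_pair, List.length_ofFn]
      refine ⟨⟨trivial, trivial, ?_, ?_⟩, R.2.1, R.2.2⟩
      · intro y hy
        rw [List.mem_ofFn] at hy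
        obtain ⟨i, rfl⟩ := hy
        exact ⟨rfl, rfl⟩
      · congr 1
        rw [List.map_ofFn]
        rfl
  | @imp k φ ψ ih1 ih2 =>
    refine Der.mk [(1, (k, formCode φ)), (1, (k, formCode ψ))] _ ?_
      (Or.inr (Or.inr (Or.inr (Or.inr (Or.inr (Or.inl ?_))))))
    · intro y hy
      simp only [List.mem_cons, List.not_mem_nil, or_false] at hy
      rcases hy with rfl | rfl
      · exact ih1
      · exact ih2
    · simp [formCode]
  | @all k φ ih =>
    refine Der.mk [(1, (k + 1, formCode φ))] _ ?_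
      (Or.inr (Or.inr (Or.inr (Or.inr (Or.inr (Or.inr ?_))))))
    · intro y hy
      simp only [List.mem_cons, List.not_mem_nil, or_false] at hy
      rcases hy with rfl
      exact ih
    · simp [formCode]

/-- The Gödel numbers of the sentences are the domain of a program. -/
theorem exists_cS {s : Sig} (hs : s.IsComputable) : ∃ c : Code, ∀ y : ℕ,
    (c.eval y).Dom ↔ ∃ φ : s.lang.Sentence, formCode φ = y := by
  have h1 : S1 fun y : ℕ => Der (WR s) 0 (1, (0, y)) :=
    (s1_der (s1_WR hs)).comp (f := fun y : ℕ => (0, (1, (0, y))))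
      ((Primrec.const 0).pair ((Primrec.const 1).pair ((Primrec.const 0).pair Primrec.id)))
  obtain ⟨c, hc⟩ := Nat.Partrec.Code.exists_code.1 h1.re
  refine ⟨c, fun y => ?_⟩
  have h2 : (c.eval y).Dom ↔ Der (WR s) 0 (1, (0, y)) := by
    rw [hc]
    simp [Part.assert]
  rw [h2]
  constructor
  · intro h
    exact (good_of_der h).2 rfl
  · rintro ⟨φ, rfl⟩
    exact der_form φ

section

variable {s : Sig} {U : ℕ → Bool} {F : ℕ → List ℕ → ℕ} {R : ℕ → List ℕ → Bool}
  [s.lang.Structure {a : ℕ // U a = true}] {cU cF cR : Code}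

theorem V_iff (hF : ∀ f l, cF.eval (encode ((f, l) : ℕ × List ℕ)) = Part.some (F f l))
    (eF : ∀ n (f : s.lang.Functions n) (x : Fin n → {a : ℕ // U a = true}),
      (FirstOrder.Language.Structure.funMap f x : {a : ℕ // U a = true}).1 =
        F f.1 (List.ofFn fun i => (x i).1))
    {k : ℕ} (t : s.lang.Term (Empty ⊕ Fin k)) (v : Empty → {a : ℕ // U a = true})
    (xs : Fin k → {a : ℕ // U a = true}) (b : ℕ) :
    V ((cU, (cF, cR)), List.ofFn fun i => (xs i).1) (termCode t, b) ↔
      b = (t.realize (Sum.elim v xs)).1 := by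
  induction t generalizing b with
  | var x =>
    rcases x with x | i
    · exact x.elim
    · simp only [termCode, FirstOrder.Language.Term.realize, Sum.elim_inr]
      constructor
      · intro h
        cases h with
        | mk l _ _ hR =>
          rcases hR with ⟨_, h1, h2⟩ | ⟨h1, _⟩
          · simp only [Nat.unpair_pair, List.length_ofFn] at h1 h2
            rw [h2, List.getD_eq_getElem _ _ (by simp)]
            simp
          · simp at h1
      · intro h
        refine Der.mk [] _ (by simp) (Or.inl ?_)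
        simp only [Nat.unpair_pair, List.length_ofFn]
        refine ⟨trivial, i.2, ?_⟩
        rw [h, List.getD_eq_getElem _ _ (by simp)]
        simp
  | @func n f ts ih =>
    simp only [termCode, FirstOrder.Language.Term.realize]
    constructor
    · intro h
      cases h with
      | mk l _ h1 hR =>
        rcases hR with ⟨h2, _⟩ | ⟨_, h2, h3⟩
        · simp at h2
        · simp only [Nat.unpair_pair] at h2 h3
          have h4 := Encodable.encode_injective h2
          rw [hF, Part.mem_some_iff] at h3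
          rw [h3, eF]
          congr 1
          have hlen : l.length = n := by
            have := congrArg List.length h4
            simpa using this.symm
          refine List.ext_getElem (by simp [hlen]) fun i h5 h6 => ?_
          have hi : i < n := by simpa using h6
          have hil : i < l.length := by omega
          have h7 := h1 l[i] (List.getElem_mem _)
          have h8 : (l[i]).1 = termCode (ts ⟨i, hi⟩) := by
            have h9 : (List.ofFn fun i => termCode (ts i))[i]'(by simpa using hi) =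
                (l.map Prod.fst)[i]'(by simpa using hil) := by
              simp only [h4]
            simpa using h9.symm
          have h10 : V ((cU, (cF, cR)), List.ofFn fun i => (xs i).1)
              (termCode (ts ⟨i, hi⟩), (l[i]).2) := by
            rw [← h8]
            exact h7
          have h11 := (ih ⟨i, hi⟩ _).1 h10
          simp only [List.getElem_map, List.getElem_ofFn]
          exact h11
    · intro h
      refine Der.mk (List.ofFn fun i => (termCode (ts i),
        ((ts i).realize (Sum.elim v xs)).1)) _ ?_ (Or.inr ?_)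
      · intro y hy
        rw [List.mem_ofFn] at hy
        obtain ⟨i, rfl⟩ := hy
        exact (ih i _).2 rfl
      · simp only [Nat.unpair_pair]
        refine ⟨trivial, ?_, ?_⟩
        · congr 1
          rw [List.map_ofFn]
          rfl
        · rw [hF, Part.mem_some_iff, h, eF]
          congr 1
          rw [List.map_ofFn]
          rfl

theorem Ev_iff (hU : ∀ a, cU.eval a = Part.some (encode (U a)))
    (hF : ∀ f l, cF.eval (encode ((f, l) : ℕ × List ℕ)) = Part.some (F f l))
    (hR : ∀ f l, cR.eval (encode ((f, l) : ℕ × List ℕ)) = Part.some (encode (R f l)))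
    (eF : ∀ n (f : s.lang.Functions n) (x : Fin n → {a : ℕ // U a = true}),
      (FirstOrder.Language.Structure.funMap f x : {a : ℕ // U a = true}).1 =
        F f.1 (List.ofFn fun i => (x i).1))
    (eR : ∀ n (r : s.lang.Relations n) (x : Fin n → {a : ℕ // U a = true}),
      FirstOrder.Language.Structure.RelMap r x ↔ R r.1 (List.ofFn fun i => (x i).1) = true)
    {k : ℕ} (φ : s.lang.BoundedFormula Empty k) (v : Empty → {a : ℕ // U a = true})
    (xs : Fin k → {a : ℕ // U a = true}) (n : ℕ) (hn : formCode φ < n) :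
    Ev n ((cU, (cF, cR)), (formCode φ, List.ofFn fun i => (xs i).1)) ↔ φ.Realize v xs := by
  have hVi := @V_iff s U F _ cU cF cR hF eF
  induction φ generalizing n with
  | falsum =>
    obtain ⟨n, rfl⟩ : ∃ m, n = m + 1 := ⟨n - 1, by omega⟩
    simp [Ev, OneStep, At, formCode, FirstOrder.Language.BoundedFormula.Realize]
  | equal t₁ t₂ =>
    obtain ⟨n, rfl⟩ : ∃ m, n = m + 1 := ⟨n - 1, by omega⟩
    simp only [Ev, OneStep, At, formCode, Nat.unpair_pair,
      FirstOrder.Language.BoundedFormula.Realize, hVi _ v]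
    constructor
    · rintro ((⟨_, b, h1, h2⟩ | ⟨h, _⟩) | ⟨h, _⟩ | ⟨h, _⟩)
      · exact Subtype.ext (h1.symm.trans h2)
      · simp at h
      · simp at h
      · simp at h
    · intro h
      exact Or.inl (Or.inl ⟨trivial, _, rfl, by rw [h]⟩)
  | @rel k m r ts =>
    obtain ⟨n, rfl⟩ : ∃ m, n = m + 1 := ⟨n - 1, by omega⟩
    simp only [Ev, OneStep, At, formCode, Nat.unpair_pair,
      FirstOrder.Language.BoundedFormula.Realize]
    constructor
    · rintro ((⟨h, _⟩ | ⟨_, l, h1, h2, h3⟩) | ⟨h, _⟩ | ⟨h, _⟩)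
      · simp at h
      · have h4 := Encodable.encode_injective h2
        rw [hR, Part.mem_some_iff] at h3
        have h3' := Encodable.encode_injective h3
        rw [eR]
        refine Eq.trans ?_ h3'.symm
        congr 1
        have hlen : l.length = m := by
          have := congrArg List.length h4
          simpa using this.symm
        refine List.ext_getElem (by simp [hlen]) fun i h5 h6 => ?_
        have hi : i < m := by simpa using h5
        have hil : i < l.length := by omega
        have h7 := h1 l[i] (List.getElem_mem _)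
        have h8 : (l[i]).1 = termCode (ts ⟨i, hi⟩) := by
          have h9 : (List.ofFn fun i => termCode (ts i))[i]'(by simpa using hi) =
              (l.map Prod.fst)[i]'(by simpa using hil) := by
            simp only [h4]
          simpa using h9.symm
        have h10 : V ((cU, (cF, cR)), List.ofFn fun i => (xs i).1)
            (termCode (ts ⟨i, hi⟩), (l[i]).2) := by
          rw [← h8]
          exact h7
        have h11 := (hVi _ v xs _).1 h10
        simp only [List.getElem_map, List.getElem_ofFn]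
        exact h11.symm
      · simp at h
      · simp at h
    · intro h
      rw [eR] at h
      refine Or.inl (Or.inr ⟨trivial, List.ofFn fun i => (termCode (ts i),
        ((ts i).realize (Sum.elim v xs)).1), ?_, ?_, ?_⟩)
      · intro y hy
        rw [List.mem_ofFn] at hy
        obtain ⟨i, rfl⟩ := hy
        exact (hVi _ v xs _).2 rfl
      · congr 1
        rw [List.map_ofFn]
        rfl
      · rw [hR, Part.mem_some_iff]
        refine congrArg encode (h.symm.trans ?_)
        congr 1
        rw [List.map_ofFn]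
        rfl
  | @imp k φ ψ ih1 ih2 =>
    obtain ⟨n, rfl⟩ : ∃ m, n = m + 1 := ⟨n - 1, by omega⟩
    simp only [formCode] at hn
    have h1 := Nat.add_le_pair 3 (Nat.pair (formCode φ) (formCode ψ))
    have h2 := Nat.add_le_pair (formCode φ) (formCode ψ)
    have i1 := ih1 xs n (by omega)
    have i2 := ih2 xs n (by omega)
    simp only [Ev, OneStep, At, formCode, Nat.unpair_pair,
      FirstOrder.Language.BoundedFormula.Realize]
    constructor
    · rintro ((⟨h, _⟩ | ⟨h, _⟩) | ⟨_, h⟩ | ⟨h, _⟩)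
      · simp at h
      · simp at h
      · intro h5
        rcases h with h | h
        · exact absurd (i1.2 h5) h
        · exact i2.1 h
      · simp at h
    · intro h
      refine Or.inr (Or.inl ⟨trivial, ?_⟩)
      by_cases h5 : φ.Realize v xs
      · exact Or.inr (i2.2 (h h5))
      · exact Or.inl fun h6 => h5 (i1.1 h6)
  | @all k φ ih =>
    obtain ⟨n, rfl⟩ : ∃ m, n = m + 1 := ⟨n - 1, by omega⟩
    simp only [formCode] at hn
    have h1 := Nat.add_le_pair 4 (formCode φ)
    simp only [Ev, OneStep, At, formCode, Nat.unpair_pair,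
      FirstOrder.Language.BoundedFormula.Realize]
    have key : ∀ a : {a : ℕ // U a = true}, (List.ofFn fun i => (xs i).1) ++ [a.1] =
        List.ofFn fun i => ((Fin.snoc xs a : Fin (k + 1) → {a : ℕ // U a = true}) i).1 := by
      intro a
      rw [List.ofFn_succ', List.concat_eq_append]
      simp
    constructor
    · rintro ((⟨h, _⟩ | ⟨h, _⟩) | ⟨h, _⟩ | ⟨_, h⟩)
      · simp at h
      · simp at h
      · simp at h
      · intro a
        have h2 := h a.1 (by rw [hU, Part.mem_some_iff, a.2])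
        rw [key a] at h2
        exact (ih _ n (by omega)).1 h2
    · intro h
      refine Or.inr (Or.inr ⟨trivial, fun a ha => ?_⟩)
      rw [hU, Part.mem_some_iff] at ha
      have ha' : U a = true := (Encodable.encode_injective ha).symm
      have h2 := (ih _ n (by omega)).2 (h ⟨a, ha'⟩)
      rw [← key ⟨a, ha'⟩] at h2
      exact h2

end

end Run7.h44.CM
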