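import Pool.Agent.Run7.h44.CM.Diag
import Pool.Agent.Run7.h44.CM.Syntax

/-!
There is a degree below `0^(ω)` that contains no complete theory with a computable model.
-/

set_option autoImplicit false

namespace Run7.h44.CM

open Encodable FirstOrder
open Nat.Partrec (Code)

theorem jumpIter_eq (n : ℕ) : jumpIter n = Pool.Agent.H685R3.jn (fun _ => false) n := by
  induction n with
  | zero => rfl
  | succ n ih =>
    show jump (jumpIter n) = _
    rw [ih]
    rfl

theorem zeroOmega_eq : zeroOmega = Pool.Agent.H685R3.om fun _ => false := by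
  funext m
  show jumpIter m.unpair.1 m.unpair.2 = _
  rw [jumpIter_eq]
  rfl

theorem exists_index {s : Sig} (hs : s.IsComputable) {T : s.lang.Theory} (hT : T.IsMaximal)
    (h : HasComputableModel T) : ∃ e, theorySet T = Th e := by
  obtain ⟨U, F, R, hst, cU', cF', cR', hne, eF, eR, hM⟩ := h
  have : Nonempty {a : ℕ // U a = true} := by
    obtain ⟨a, ha⟩ := hne
    exact ⟨⟨a, ha⟩⟩
  obtain ⟨cS, hS⟩ := exists_cS hs
  obtain ⟨cU, hU⟩ := Code.exists_code.1 (Partrec.nat_iff.1
    (show Computable fun a : ℕ => encode (U a) from Computable.encode.comp cU'))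
  obtain ⟨cF, hF⟩ := Code.exists_code.1
    (show Computable fun x : ℕ × List ℕ => F x.1 x.2 from cF')
  obtain ⟨cR, hR⟩ := Code.exists_code.1
    (show Computable fun x : ℕ × List ℕ => encode (R x.1 x.2) from Computable.encode.comp cR')
  refine ⟨encode ((cS, (cU, (cF, cR))) : Code × E3), ?_⟩
  funext y
  unfold theorySet Th
  rw [Denumerable.ofNat_encode]
  rw [decide_eq_decide]
  have hmem : ∀ φ : s.lang.Sentence, φ ∈ T ↔ {a : ℕ // U a = true} ⊨ φ := by
    intro φ
    constructor
    · intro h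
      exact hM.realize_of_mem φ h
    · intro h
      rcases hT.2 φ with h1 | h1
      · exact h1
      · have h2 := hM.realize_of_mem _ h1
        exact absurd h (by simpa [FirstOrder.Language.Sentence.realize_not] using h2)
  have hEv : ∀ φ : s.lang.Sentence, Ev (formCode φ + 1) ((cU, (cF, cR)), (formCode φ, [])) ↔
      {a : ℕ // U a = true} ⊨ φ := by
    intro φ
    have h1 := Ev_iff (s := s) (U := U) (F := F) (R := R) (cU := cU) (cF := cF) (cR := cR)
      (fun a => by rw [hU]; rfl)
      (fun f l => by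
        rw [hF]
        simp)
      (fun f l => by
        rw [hR]
        simp) eF eR φ (default : Empty → _) (default : Fin 0 → _) (formCode φ + 1)
      (Nat.lt_succ_self _)
    simp only [List.ofFn_zero] at h1
    exact h1
  constructor
  · rintro ⟨φ, hφ, rfl⟩
    exact ⟨(hS _).2 ⟨φ, rfl⟩, (hEv φ).2 ((hmem φ).1 hφ)⟩
  · rintro ⟨h1, h2⟩
    obtain ⟨φ, rfl⟩ := (hS _).1 h1
    exact ⟨φ, (hmem φ).2 ((hEv φ).1 h2), rfl⟩

theorem main : ∃ D : ℕ → Bool, TuringReducible (chi D) (chi zeroOmega) ∧
    ∀ s : Sig, s.IsComputable → ∀ T : s.lang.Theory, T.IsMaximal → HasComputableModel T →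
      ¬ TuringEquivalent (chi (theorySet T)) (chi D) := by
  obtain ⟨D, h1, h2⟩ := exists_diag (Pool.Agent.H685R3.om fun _ => false) Th
    (Pool.Agent.H685R3.tLe_jn_om (fun _ => false) 1) si_Th
  refine ⟨D, ?_, fun s hs T hT h => ?_⟩
  · rw [zeroOmega_eq]
    exact h1
  · obtain ⟨e, he⟩ := exists_index hs hT h
    rw [he]
    rintro ⟨h3, h4⟩
    exact h2 e ⟨h3, h4⟩

end Run7.h44.CM
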